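import Pool.Agent.Y172.R10

/-!
# Weak abundance for log canonical pairs over the image of a linear system with high multiplicities

Let `(X, Δ)` be a projective log canonical pair such that `K_X + Δ - Γ` is pseudo-effective for an
effective divisor `Γ` (for instance `Γ = 0`), and `Z → X` a finite cover which is fibred over the
image `W` of a linear system on `Z`, such that the linear system has high multiplicities at the prime
divisors of `X` with coefficient less than `1` in `Δ`, and the fibres are very affine outside of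
the prime divisors with coefficient `1` in `Δ`; nothing is required along `Γ` and along the divisors
in the diminished base locus. Then the Kodaira dimension and the numerical dimension of `K_X + Δ` are
equal, in terms of the literal definitions.

The language and the definitions of `Pool.Agent.Y172` are used: `X` is given by the homogeneous
coordinates `y` of its generic point, with values in the function field `K` of `X`; the prime divisors
of `X` are places `P` of `K`, `P.ord` is the order along `P`; `Over Q P e` says that the place `Q` of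
the function field `L` of `Z` is over `P` with ramification index `e`.
-/

set_option autoImplicit false

open FF Pool.Agent.W602.GT Pool.Agent.Y172

namespace Pool.Agent.Results.MP_2c56d9_ag.LinearSystemWeakAbundance

/-- `K_X + D` is pseudo-effective, tested with the effective divisor `A`: the divisor
`m (K_X + D) + A` has a section `≠ 0` for arbitrarily large `m`. -/
def PseudoEffective {K : Type} [Field K] [Algebra ℂ K] {N : ℕ} (y : Fin (N + 1) → K) (n : ℕ)
    (D A : Place ℂ K → ℚ) : Prop :=
  ∀ m₁ : ℕ, ∃ m : ℕ, m₁ ≤ m ∧ ∃ s, IsSection y n m (m • D + A) s ∧ s ≠ 0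

/-- The prime divisor `P` is negligible: it is in the support of `Γ`, or in the base locus of
`m (K_X + Δ + η A)` for all `m ≥ 1` and all small `η ≥ 0`. -/
def Negligible {K : Type} [Field K] [Algebra ℂ K] {N : ℕ} (y : Fin (N + 1) → K) (n : ℕ)
    (Δ Γ A : Place ℂ K → ℚ) (P : Place ℂ K) : Prop :=
  Γ P ≠ 0 ∨ Diminished y n Δ A P

/-- The field generated by the quotients of the members of `V`: the function field of the image of
the rational map given by the linear system `V`. -/
noncomputable def quotientField {L : Type} [Field L] [Algebra ℂ L] (V : Submodule ℂ L) :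
    IntermediateField ℂ L :=
  IntermediateField.adjoin ℂ {z : L | ∃ f ∈ V, ∃ g ∈ V, z = f / g}

/-- `V` has a basis of `v + 1` elements, divided into `c` nonempty groups, such that `φ i` is a
linear combination of the elements of the group `γ i`: `V` is the direct sum of `c` nonzero
subspaces, and `φ i` is in the subspace with the number `γ i`. -/
def Decomposition {L : Type} [Field L] [Algebra ℂ L] (v : ℕ) {q c : ℕ} (V : Submodule ℂ L)
    (φ : Fin q → L) (γ : Fin q → Fin c) : Prop :=
  ∃ (x : Fin (v + 1) → L) (g : Fin (v + 1) → Fin c), LinearIndependent ℂ x ∧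
    Submodule.span ℂ (Set.range x) = V ∧ Function.Surjective g ∧
    ∀ i, φ i ∈ Submodule.span ℂ (x '' {a | g a = γ i})

/-- The number `R` in the bound for the multiplicities: `v + 3 - c`, and even `v + 1` if `c = 1` and
at least `v + 3` of the `φ i` are pairwise not proportional. -/
def Bound {L : Type} [Field L] [Algebra ℂ L] {q : ℕ} (φ : Fin q → L) (v c R : ℕ) : Prop :=
  R + c = v + 3 ∨
    (c = 1 ∧ (∃ τ : Fin (v + 3) → Fin q, ∀ i j, i ≠ j → ∀ t : ℂ, φ (τ i) ≠ t • φ (τ j)) ∧
      R = v + 1)

/-- The functions `φ i` all have the same order at `Q`. -/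
def Level {L : Type} [Field L] [Algebra ℂ L] {q : ℕ} (φ : Fin q → L) (Q : Place ℂ L) : Prop :=
  ∀ i i', Q.ord (φ i) = Q.ord (φ i')

/-- The minimum of the orders of the `φ i` at `Q` is the same in all groups. -/
def Balanced {L : Type} [Field L] [Algebra ℂ L] {q c : ℕ} (φ : Fin q → L) (γ : Fin q → Fin c)
    (Q : Place ℂ L) : Prop :=
  ∃ a, (∀ i, a ≤ Q.ord (φ i)) ∧ ∀ j, ∃ i, γ i = j ∧ Q.ord (φ i) = a

/-- The place `Q` is over the generic point of the variety with function field `F`. -/
def Horizontal {L : Type} [Field L] [Algebra ℂ L] (F : IntermediateField ℂ L) (Q : Place ℂ L) :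
    Prop :=
  ∀ f ∈ F, f ≠ 0 → Q.ord f = 0

/-- The `ℚ`-divisor `Δ'` is equal to `Δ` outside of the support of `Γ`, and larger than `Δ - Γ` along
all components of `Γ`. -/
def Above {K : Type} [Field K] [Algebra ℂ K] {N : ℕ} (y : Fin (N + 1) → K)
    (Δ Γ Δ' : Place ℂ K → ℚ) : Prop :=
  ∀ P, IsPrimeDivisor y P → (Γ P = 0 → Δ' P = Δ P) ∧ (Γ P ≠ 0 → Δ P - Γ P < Δ' P)

/-- **Weak abundance.** Let `(X, Δ)` be a projective log canonical pair of dimension `n` with function
field `K`, `Γ` and `A` effective divisors on `X` such that `K_X + Δ - Γ` is pseudo-effective, and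
`Z → X` a finite cover with function field `L`. Let `V` be a linear system of dimension `v` on `Z`,
spanned by nonzero members `φ i`, and let `c` be the largest number such that `V` is a direct sum of
`c` nonzero subspaces which together contain all `φ i`. Let `W` be the image of `V`, `d = v - k` its
dimension, and let `L` be generated by functions `t j` and elements which are algebraic over the
function field of `W`. Let `2 s > R (k + 1) (k + 2)`, with `R` as in `Bound`. Assume for all prime
divisors `P` of `X` which are not negligible and all prime divisors `Q` of `Z` over `P`, with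
ramification index `e`: if the `φ i` all have the same order at `Q`, then `e (1 - Δ P) ≤ 1`;
otherwise, there are two `φ i` in the same summand of `V` whose orders differ by at least
`s e (1 - Δ P)`; if `Δ P = 1`, the minimum of the orders of the `φ i` is the same in all summands (this
is no condition if `c = 1`); and if `Q` dominates `W` and some `t j` has a zero or pole at `Q`, then
`Δ P = 1`. Then there is `κ ≥ d` such that the Kodaira dimension and the numerical dimension of
`K_X + Δ'` are equal to `κ` for all `ℚ`-divisors `Δ'` (in particular for `Δ' = Δ`) which are equal to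
`Δ` outside of `Γ` and larger than `Δ - Γ` along `Γ`, and such that the Iitaka dimension of every
`ℚ`-divisor whose positive part is supported in `Γ` is at most `κ`. -/
theorem result {K L : Type} [Field K] [Field L] [Algebra ℂ K] [Algebra ℂ L] [Algebra K L]
    [IsScalarTower ℂ K L] [FiniteDimensional K L] {N n v d k q c r R : ℕ} {y : Fin (N + 1) → K}
    (hy : NormalModel y) (hn : Algebra.trdeg ℂ K = n)
    {Δ : Place ℂ K → ℚ} (hΔ : Effective y Δ) (hLC : LogCanonical y n Δ)
    {Γ A : Place ℂ K → ℚ} (hΓ : Effective y Γ) (hA : Effective y A)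
    (hps : PseudoEffective y n (Δ - Γ) A)
    {V : Submodule ℂ L} {φ : Fin q → L} (hφ0 : ∀ i, φ i ≠ 0)
    (hφ : Submodule.span ℂ (Set.range φ) = V) {γ : Fin q → Fin c} (hγ : Decomposition v V φ γ)
    (hc : ∀ γ' : Fin q → Fin (c + 1), ¬ Decomposition v V φ γ')
    (hd : Algebra.trdeg ℂ (quotientField V) = d) (hk : d + k = v) (hR : Bound φ v c R)
    {s : ℝ} (hs : (R : ℝ) * ((k + 1) * (k + 2)) < 2 * s)
    {t : Fin r → L} (ht : ∀ j, t j ≠ 0)
    (hgen : IntermediateField.adjoin ℂ
      ({z : L | IsAlgebraic (quotientField V) z} ∪ Set.range t) = ⊤)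
    (h : ∀ P, IsPrimeDivisor y P → ¬ Negligible y n Δ Γ A P →
      ∀ (Q : Place ℂ L) (e : ℕ), Over Q P e →
        (Level φ Q → (e : ℚ) * (1 - Δ P) ≤ 1) ∧
        (¬ Level φ Q → ∃ i i', γ i' = γ i ∧
          s * (e * (1 - Δ P)) ≤ ((Q.ord (φ i) - Q.ord (φ i') : ℤ) : ℝ)) ∧
        (1 ≤ Δ P → Balanced φ γ Q) ∧
        (Horizontal (quotientField V) Q → (∃ j, Q.ord (t j) ≠ 0) → 1 ≤ Δ P)) :
    ∃ κ : ℕ, d ≤ κ ∧
      (∀ Δ' : Place ℂ K → ℚ, Above y Δ Γ Δ' →
        kodairaDim y n Δ' = (κ : WithBot ℕ) ∧
          ∀ A', Effective y A' → Integral y A' → numericalDim y n Δ' A' = (κ : EReal)) ∧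
      ∀ G : Place ℂ K → ℚ, (∀ P, IsPrimeDivisor y P → Γ P = 0 → G P ≤ 0) →
        iitakaDim y n G ≤ (κ : WithBot ℕ) := by
  have hneg : ∀ P, Γ P = 0 → ¬ Diminished y n Δ A P → ¬ Negligible y n Δ Γ A P := by
    rintro P h1 h2 (h3 | h3)
    · exact h3 h1
    · exact h2 h3
  obtain ⟨κ, h1, h2, h3⟩ := Pool.Agent.Y172.main7 (L := L) (R := R) hy hn hΔ hLC hΓ hA hps
    hφ0 hφ hγ hc hd hk hR hs
    (fun P hP h1 h2 Q e hQ hv => (h P hP (hneg P h1 h2) Q e hQ).2.1 fun hl => by
      obtain ⟨i, i', hi⟩ := hv
      exact hi (hl i i'))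
    (fun P hP h1 h2 h3 Q e hQ => (h P hP (hneg P h1 h2) Q e hQ).2.2.1 h3) ht hgen
    (fun P hP h1 h2 Q e hQ hv hj => (h P hP (hneg P h1 h2) Q e hQ).2.2.2 hv hj)
    fun P hP h1 h2 Q e hQ => (h P hP (hneg P h1 h2) Q e hQ).1
  exact ⟨κ, h1, fun Δ' hΔ' => h2 Δ' (fun P hP => (hΔ' P hP).1) fun P hP => (hΔ' P hP).2, h3⟩

end Pool.Agent.Results.MP_2c56d9_ag.LinearSystemWeakAbundance
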