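import Pool.Agent.Q82.AB.Fin

/-!
MP_2c56d9_ag, Q1 (the case of smooth varieties without boundary): Kodaira dimension and numerical
dimension of varieties of maximal Albanese dimension and of their quotients by finite groups.
-/

set_option autoImplicit false

open IntermediateField Pool.Agent.W619.TW Pool.Agent.W619.Y Pool.Agent.Y173.QA

namespace Pool.Agent.Results.MP_2c56d9_ag.MaximalAlbaneseQuotients

/-- Let `W` be a complex projective variety of dimension `n ≥ 1` with function field `L`, `V` a space
of closed rational `1`-forms which are regular along all prime divisors over `W`, and which generate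
the cotangent bundle at the generic point: `V` contains `n` forms with nonzero exterior product (for
`W` smooth and `V = H⁰ (Ω¹)`: `W` has maximal Albanese dimension). Let `r` be the dimension of the
space of all rational vector fields on which all forms in `V` are constant, `a = n - r`.
Let `G` be a finite group of automorphisms of `L` which preserves `V`. Then:

* `κ (W) ≥ a`, in fact `h⁰ (j m₀ K) ≥ j ^ a` for some `m₀` and all `j`;
* under the condition of Reid-Tai type `∑ a i ≥ ord g` (`ReidTai n G V 0`) `κ (W / G) ≥ 0`;
* under the condition `∑ a i ≥ ord g + 1` (`ReidTai n G V 1`) `κ (W / G) ≥ a`, with the same growth;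
* if those vector fields are regular on a projective model of `W` (for instance, if they come from an
  action of an abelian variety), then `h⁰ (m K + A) ≤ C m ^ a` for all `A`, that is `ν ≤ a`, for
  projective manifolds birational to `W` and to `W / G`, and `κ ≤ a` for both.

So `κ (W) = ν (W) = a`, and `κ (X) = ν (X) = a` for the projective manifolds `X` birational to `W / G`
if `ReidTai n G V 1` holds. -/
theorem result {L : Type} [Field L] [Algebra ℂ L] [Algebra.EssFiniteType ℂ L] {n : ℕ}
    (hn0 : 0 < n) (hn : Algebra.trdeg ℂ L = n)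
    (V : Submodule ℂ (Derivation ℂ L L →ₗ[L] L))
    (hreg : ∀ θ ∈ V, IsRegForm n θ) (hcl : ∀ θ ∈ V, IsClosedForm θ)
    (hgen : ∃ θ : Fin n → Derivation ℂ L L →ₗ[L] L, (∀ i, θ i ∈ V) ∧
      ∃ D : Fin n → Derivation ℂ L L, (Matrix.of fun i j => θ i (D j)).det ≠ 0)
    (G : Subgroup (L ≃ₐ[ℂ] L)) [Finite G]
    (hstab : ∀ g ∈ G, ∀ θ ∈ V, ∃ θ' ∈ V, IsImage g θ θ') :
    ∃ a r : ℕ, a + r = n ∧ Module.finrank ℂ (constFields V) = r ∧ KodTr ℂ L n a ∧
      KodGe ℂ L n (fun _ => False) a ∧
      (ReidTai n G V 0 → KodTr ℂ (fixedField G) n 0) ∧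
      (ReidTai n G V 1 → KodTr ℂ (fixedField G) n a ∧
        KodGe ℂ (fixedField G) n (fun _ => False) a) ∧
      (IsRegularOnModel (constFields V) →
        NumLe ℂ L n (fun _ => False) a ∧ NumLe ℂ (fixedField G) n (fun _ => False) a ∧
        (∀ b, KodTr ℂ L n b → b ≤ a) ∧ (∀ b, KodTr ℂ (fixedField G) n b → b ≤ a)) :=
  Pool.Agent.Q82.AB.main hn0 hn V hreg hcl hgen G hstab

end Pool.Agent.Results.MP_2c56d9_ag.MaximalAlbaneseQuotients
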