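import Pool.Agent.TH756.PN.FinW
import Pool.Agent.Y172.UpB
import Pool.Agent.Y172.Cov3

/-!
# Weak abundance for pairs over products of projective spaces

Let `(X, Δ)` be a projective pair, `X` normal, `Δ` an effective `ℚ`-divisor with coefficients at most
`1` (for instance `(X, Δ)` is log canonical), with a generically finite rational map
`X ⇢ ∏ i, ℙ ^ (n i)` such that the prime divisors over the prime divisors of the product are prime
divisors of `X` (for instance a generically finite morphism). For `i < r` let `ℓ i k = 0`, `k < q i`,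
be hyperplanes in projective `n i`-space, an arbitrary arrangement (general position is not assumed),
and for a prime divisor `P` of `X` let `v i k` be the multiplicity of the hyperplane `ℓ i k = 0` at
`P` (for the divisors without fixed component which the map defines). For each factor let `g i` be
one of the following functions of the multiplicities `v i k`: `(max v i k) / (n i + 2)`, or
`(max v i k) / (n i + 1)` if the arrangement does not consist of `n i + 2` hyperplanes in general
position (for these two the arrangement must not be reducible), or the (combinatorial) log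
discrepancy with respect to a log Calabi-Yau pair `(ℙ ^ (n i), ∑ w k H k)` with rational weights
`w k` on the hyperplanes `H k`. Let `I` be a set of factors. Suppose:

* at the prime divisors `P` of `X` whose image lies in one of the hyperplanes `1 - Δ_P` is at most
  the sum of the `g i (v i)`, and it is smaller than the sum if the image lies in one chosen
  hyperplane `k0 i` of one of the factors in `I`;
* for each of the factors which are not in `I` there are weights `w k ≥ 0` whose sum is `n i + 1`
  such that `m - ∑ w k * v i k ≤ 1 - Δ_P` at all prime divisors `P` over prime divisors of the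
  product which lie in one of the hyperplanes of the factor, `m` being the ramification index; and
  outside the hyperplanes, and outside finitely many hypersurfaces `f = 0` which are the pullbacks of
  hypersurfaces of the product of the factors in `I`, the map is not ramified over prime divisors of
  the product, and they are not in the image of the support of `Δ`. (There is no upper bound for the
  ramification and for `Δ` over the divisors which come from the factors in `I`.)

The theorem: `κ (X, K_X + Δ) = ν (X, K_X + Δ) = ∑ i ∈ I, n i`.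

So the Iitaka fibration of `K_X + Δ` is the map to the product of the factors in `I` (up to a
generically finite map), and its general fibre is a cover of a product of projective spaces with
`K + Δ` numerically trivial up to exceptional divisors, where the conditions for the different factors
are mixed: at a prime divisor which lies over hyperplanes of several factors only the sum of the
`g i (v i)` is bounded from below.

The function-field language of `Pool.Agent.Y172` is used: `X` is given by the homogeneous coordinates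
`y` of its generic point, with values in the function field `K` of `X`; the prime divisors of `X` are
places `P` of `K`, `P.ord` is the order along `P`; `kodairaDim` and `numericalDim` are the literal
definitions of the Kodaira dimension and of the numerical dimension of `K_X + Δ`.
-/

set_option autoImplicit false

open FF Module Pool.Agent.W602.Cov Pool.Agent.W602.GT Pool.Agent.TH152.AC Pool.Agent.Y172

namespace Pool.Agent.Results.MP_2c56d9_ag.MultiprojectivePairs

section bounds

variable {n q : ℕ}

/-- In suitable linear coordinates `X 0, ..., X n` each of the hyperplanes is one of `X j = 0` or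
`X 0 + ... + X n = 0`. The arrangements with this property which are not reducible are, up to
repetitions, the arrangements of `n + 2` hyperplanes in general position. -/
def Simplicial (ℓ : Fin q → Form n) : Prop :=
  ∃ X : Basis (Fin (n + 1)) ℂ (Form n), ∀ i,
    (∃ c : ℂ, ℓ i = c • ∑ j, X j) ∨ ∃ (j : Fin (n + 1)) (c : ℂ), ℓ i = c • X j

/-- `(ℙ ^ n, ∑ w k H k)` is a log Calabi-Yau pair with rational weights: `w` is a rational convex
combination of the vectors with entries `1` for the `n + 1` hyperplanes of a basis `B` (that is, of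
`n + 1` linearly independent ones) and `0` for all others. -/
def LogCalabiYau (ℓ : Fin q → Form n) (w : Fin q → ℚ) : Prop :=
  ∃ p : Bases ℓ → ℕ, 0 < ∑ B, p B ∧ ∀ k, (∑ B, (p B : ℚ)) * w k =
    ∑ B, (p B : ℚ) * ((Finset.univ.filter fun a => B.1 a = k).card : ℚ)

/-- The maximum of the sums of the `v k` over the bases, minus the sum of the `w k * v k`. This is the
log discrepancy of the pair `(ℙ ^ n, ∑ w k H k)` at the toric divisors over the projective space along
which the hyperplanes have the multiplicities `v k`, and a lower bound for it at all divisors with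
these multiplicities. -/
noncomputable def logDiscrepancy (ℓ : Fin q → Form n) (w : Fin q → ℚ) (v : Fin q → ℕ) : ℚ :=
  ((Finset.univ.sup fun B : Bases ℓ => ∑ a, v (B.1 a) : ℕ) : ℚ) - ∑ k, w k * v k

/-- The bounds for one arrangement. -/
inductive Bound (ℓ : Fin q → Form n) : ((Fin q → ℕ) → ℚ) → Prop
  | irreducible : ¬ Reducible ℓ →
      Bound ℓ fun v => ((Finset.univ.sup v : ℕ) : ℚ) / ((n + 2 : ℕ) : ℚ)
  | notSimplicial : ¬ Reducible ℓ → ¬ Simplicial ℓ →
      Bound ℓ fun v => ((Finset.univ.sup v : ℕ) : ℚ) / ((n + 1 : ℕ) : ℚ)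
  | logCalabiYau (w : Fin q → ℚ) : LogCalabiYau ℓ w → Bound ℓ (logDiscrepancy ℓ w)

end bounds

/-- The value of a linear form at a vector over `K`. -/
noncomputable def form {n : ℕ} {K : Type} [Field K] [Algebra ℂ K] (φ : Form n)
    (x : Fin (n + 1) → K) : K := ∑ j, algebraMap ℂ K (φ (Pi.single j 1)) * x j

section divisors

variable {r : ℕ} {n q : Fin r → ℕ} {K : Type} [Field K] [Algebra ℂ K]

/-- The affine coordinates of the product of the projective spaces. -/
noncomputable def affine (x : ∀ i, Fin (n i + 1) → K) (b : (i : Fin r) × Fin (n i)) : K :=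
  x b.1 b.2.succ / x b.1 0

/-- The hyperplanes `ℓ i k` have the multiplicities `v i k` at `P`: their orders are `a i + v i k`,
where `a i` is the minimum of the orders of all linear forms on the `i`-th factor. -/
def Multiplicities (ℓ : ∀ i, Fin (q i) → Form (n i)) (x : ∀ i, Fin (n i + 1) → K)
    (P : Place ℂ K) (a : Fin r → ℤ) (v : ∀ i, Fin (q i) → ℕ) : Prop :=
  (∀ i (φ : Form (n i)), form φ (x i) = 0 ∨ a i ≤ P.ord (form φ (x i))) ∧
    (∀ i, ∃ φ : Form (n i), form φ (x i) ≠ 0 ∧ P.ord (form φ (x i)) = a i) ∧
    ∀ i k, P.ord (form (ℓ i k) (x i)) = a i + v i k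

/-- The degree in the affine coordinates of the `i`-th factor. -/
def degree (i : Fin r) (f : MvPolynomial ((i : Fin r) × Fin (n i)) ℂ) : ℕ :=
  f.support.sup fun m => ∑ j : Fin (n i), m ⟨i, j⟩

/-- The place `P` lies over a prime divisor of the product of the projective spaces, with
ramification index `m`: over the prime divisor `p = 0` of the affine space, or over the hyperplane at
infinity of one of the factors. -/
def LiesOver (x : ∀ i, Fin (n i + 1) → K) (P : Place ℂ K) (m : ℕ) : Prop :=
  (∃ p : MvPolynomial ((i : Fin r) × Fin (n i)) ℂ, Irreducible p ∧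
    P.ord (MvPolynomial.aeval (affine x) p) = m ∧
    ∀ f, f ≠ 0 → 0 ≤ P.ord (MvPolynomial.aeval (affine x) f) ∧
      (P.ord (MvPolynomial.aeval (affine x) f) = 0 ↔ ¬ p ∣ f)) ∨
  (0 < m ∧ ∃ i, ∀ f, f ≠ 0 →
    P.ord (MvPolynomial.aeval (affine x) f) = - ((m : ℤ) * (degree i f : ℤ)))

/-- The lower bound: at the prime divisors of `X` whose image lies in one of the hyperplanes the sum
of the bounds is at least `1 - Δ_P`, and it is larger if the image lies in one of the chosen
hyperplanes `k0 i`, `i ∈ I`. -/
def Lower {M : ℕ} (y : Fin (M + 1) → K) (Δ : Place ℂ K → ℚ) (ℓ : ∀ i, Fin (q i) → Form (n i))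
    (x : ∀ i, Fin (n i + 1) → K) (g : ∀ i, (Fin (q i) → ℕ) → ℚ) (I : Finset (Fin r))
    (k0 : ∀ i, Fin (q i)) : Prop :=
  ∀ P, IsPrimeDivisor y P → ∀ (a : Fin r → ℤ) (v : ∀ i, Fin (q i) → ℕ),
    Multiplicities ℓ x P a v → (∃ i, v i ≠ 0) → 1 - Δ P ≤ ∑ i, g i (v i) ∧
      ((∃ i ∈ I, v i (k0 i) ≠ 0) → 1 - Δ P < ∑ i, g i (v i))

/-- The upper bound at the places over the prime divisors of the product: they are prime divisors of
`X`; if they do not lie over one of the hyperplanes or over one of the hypersurfaces `f = 0`, `f ∈ F`,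
then they are not ramified and not in the support of `Δ`; and if they lie over one of the hyperplanes
of the `i`-th factor, `i ∉ I`, then `m - ∑ w i k * v i k ≤ 1 - Δ_P`. -/
def Upper {M : ℕ} (y : Fin (M + 1) → K) (Δ : Place ℂ K → ℚ) (ℓ : ∀ i, Fin (q i) → Form (n i))
    (x : ∀ i, Fin (n i + 1) → K) (w : ∀ i, Fin (q i) → ℚ) (I : Finset (Fin r))
    (F : Finset (MvPolynomial ((i : Fin r) × Fin (n i)) ℂ)) : Prop :=
  ∀ P m, LiesOver x P m → IsPrimeDivisor y P ∧
    ∀ (a : Fin r → ℤ) (v : ∀ i, Fin (q i) → ℕ), Multiplicities ℓ x P a v →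
      ((∀ i, v i = 0) → (∀ f ∈ F, P.ord (MvPolynomial.aeval (affine x) f) = 0) →
        m = 1 ∧ Δ P = 0) ∧
      ∀ i, i ∉ I → v i ≠ 0 → (m : ℚ) - ∑ k, w i k * v i k ≤ 1 - Δ P

end divisors

/-- **Weak abundance.** Let `(X, Δ)` be a projective pair of dimension `N = ∑ i, n i`, `X` normal with
generic point `y` and `Δ` an effective `ℚ`-divisor with coefficients at most `1`, and `X ⇢ ∏ ℙ ^ (n i)`
a generically finite rational map with coordinates `x i`. Let `g i` be bounds for the arrangements
`ℓ i`, let `I` be a set of factors such that `Δ` and the multiplicities satisfy the lower bound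
`Lower`, and the upper bound `Upper` for weights `w i k ≥ 0` with the sums `n i + 1`, `i ∉ I`, and for
finitely many polynomials `f ≠ 0` in the coordinates of the factors in `I`. Then the Kodaira
dimension and the numerical dimension of `K_X + Δ` are equal, and they are the sum of the `n i`,
`i ∈ I`. -/
theorem result (r N : ℕ) (n q : Fin r → ℕ) (hr : 1 ≤ r) (hn : ∀ i, 1 ≤ n i) (hN : N = ∑ i, n i)
    (ℓ : ∀ i, Fin (q i) → Form (n i)) (hℓ : ∀ i k, ℓ i k ≠ 0)
    (g : ∀ i, (Fin (q i) → ℕ) → ℚ) (hg : ∀ i, Bound (ℓ i) (g i))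
    (I : Finset (Fin r)) (k0 : ∀ i, Fin (q i)) (w : ∀ i, Fin (q i) → ℚ)
    (hw0 : ∀ i, i ∉ I → ∀ k, 0 ≤ w i k) (hw1 : ∀ i, i ∉ I → ∑ k, w i k = (n i : ℚ) + 1)
    (F : Finset (MvPolynomial ((i : Fin r) × Fin (n i)) ℂ))
    (hF : ∀ f ∈ F, f ≠ 0 ∧ ∀ i, i ∉ I → degree i f = 0)
    (K : Type) [Field K] [Algebra ℂ K] (M : ℕ) (y : Fin (M + 1) → K) (hy : NormalModel y)
    (Δ : Place ℂ K → ℚ) (hΔ : Effective y Δ) (hΔ1 : ∀ P, IsPrimeDivisor y P → Δ P ≤ 1)
    (x : ∀ i, Fin (n i + 1) → K) (hx0 : ∀ i, x i 0 ≠ 0) (hbas : IsTranscendenceBasis ℂ (affine x))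
    (hlow : Lower y Δ ℓ x g I k0) (hup : Upper y Δ ℓ x w I F) :
    kodairaDim y N Δ = ((∑ i ∈ I, n i : ℕ) : WithBot ℕ) ∧
      ∀ A, Effective y A → Integral y A →
        numericalDim y N Δ A = ((∑ i ∈ I, n i : ℕ) : EReal) := by
  classical
  have hwtd : ∀ i, Pool.Agent.TH756.PN.Wtd (ℓ i) (g i) := by
    intro i
    obtain ⟨G, hG⟩ : ∃ G, G = g i := ⟨_, rfl⟩
    have h1 := hg i
    rw [← hG] at h1 ⊢
    cases h1 with
    | irreducible h2 =>
      exact Pool.Agent.TH756.PN.wtd_slack (by omega)
        (Pool.Agent.TH756.PR.slack_of_bnd (hn i) (hℓ i) h2 (Or.inl rfl))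
        (Pool.Agent.W392.CG.span_top (hn i) (ℓ i) h2)
    | notSimplicial h2 h3 =>
      exact Pool.Agent.TH756.PN.wtd_slack (by omega)
        (Pool.Agent.TH756.PR.slack_of_bnd (hn i) (hℓ i) h2 (Or.inr ⟨rfl, Or.inr h3⟩))
        (Pool.Agent.W392.CG.span_top (hn i) (ℓ i) h2)
    | logCalabiYau w h2 => exact Pool.Agent.TH756.PN.BasePt.wtd h2
  have hcard : Algebra.trdeg ℂ K = (N : Cardinal) := by
    have h1 := hbas.cardinalMk_eq_trdeg
    rw [← h1, Cardinal.mk_fintype, Fintype.card_sigma, hN]
    simp
  have hess := hy.ess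
  let e : ((i : Fin r) × Fin (n i)) ≃ Fin N := finSigmaFinEquiv.trans (finCongr hN.symm)
  have hfd : FiniteDimensional (IntermediateField.adjoin ℂ (Set.range (affine x))) K := by
    have h1 : IsTranscendenceBasis ℂ (affine x ∘ e.symm) := (isTranscendenceBasis_equiv e.symm).2 hbas
    have h2 := fd_basis h1
    rwa [e.symm.surjective.range_comp] at h2
  obtain ⟨⟨T, hT, ω, hω, D, hD, hind⟩, hnu⟩ := Pool.Agent.TH756.PN.pairs_main (K := K) (x := x)
    (ℓ := ℓ) (N := N) hr hn hN hℓ g hwtd I k0 w hw0 hw1 F (fun f hf => (hF f hf).1)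
    (fun f hf => (hF f hf).2) hx0 hbas hfd {P | IsPrimeDivisor y P}
    (fun f hf => finite_ord hy hf) (fun P m hP => (hup P m hP).1) (fun P => (Δ P : ℝ))
    (fun P hP => by exact_mod_cast hΔ.1 P hP) (fun P hP => by exact_mod_cast hΔ1 P hP)
    (fun P hP _ a v hv hv0 => by
      obtain ⟨h1, h2⟩ := hlow P hP a v hv hv0
      refine ⟨?_, fun h => ?_⟩
      · have h3 := (Rat.cast_le (K := ℝ)).2 h1
        push_cast at h3 ⊢
        exact h3
      · have h3 := (Rat.cast_lt (K := ℝ)).2 (h2 h)
        push_cast at h3 ⊢
        exact h3)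
    (fun P m hP a v hv => by
      obtain ⟨h1, h2⟩ := (hup P m hP).2 a v hv
      refine ⟨fun h h' => ⟨(h1 h h').1, ?_⟩, fun i hi h => ?_⟩
      · rw [(h1 h h').2, Rat.cast_zero]
      · have h3 := (Rat.cast_le (K := ℝ)).2 (h2 i hi h)
        push_cast at h3 ⊢
        exact h3)
  obtain ⟨Z, E, hZ, hE⟩ := exists_crd hcard
  have hfr : IsFrame E := fun G =>
    ⟨fun j => G (Z j), (Pool.Agent.W73.PG.PULL.expand Z hZ E hE G).symm⟩
  refine dims hΔ hfr ?_ (m0 := T) hT (ω := ω) (fun j => ⟨(hω j).1, fun P hP G hG => ?_⟩) hD hind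
  · intro A hA
    -- a finite set of functions which generates `A`
    obtain ⟨S, hS⟩ : ∃ S : Finset K, ∀ P, IsPrimeDivisor y P →
        ∃ s ∈ S, s ≠ 0 ∧ (P.ord s : ℝ) ≤ -(A P : ℝ) := by
      let S0 := hA.2.toFinset
      choose t ht0 ht using fun P : Place ℂ K => P.surj
      refine ⟨insert 1 (S0.image fun P => t P ^ (-⌈A P⌉)), fun P hP => ?_⟩
      by_cases h0 : A P = 0
      · refine ⟨1, Finset.mem_insert_self _ _, one_ne_zero, ?_⟩
        rw [P.ord_one, h0]
        simp
      · refine ⟨t P ^ (-⌈A P⌉), Finset.mem_insert_of_mem (Finset.mem_image_of_mem _ ?_),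
          zpow_ne_zero _ (ht0 P), ?_⟩
        · rw [Set.Finite.mem_toFinset]
          exact ⟨hP, h0⟩
        · rw [P.ord_zpow, ht]
          have h1 : (A P : ℝ) ≤ (⌈A P⌉ : ℝ) := by exact_mod_cast Int.le_ceil (A P)
          push_cast
          linarith
    obtain ⟨C, hC⟩ := hnu S
    refine ⟨C, fun m hm ρ f hf hsec => hC m ρ hm ?_⟩
    choose θ hθ hθf using hsec
    refine ⟨θ, ?_, fun l => ⟨(hθ l).1, fun P hP _ G hG => ?_⟩⟩
    · let ev : ((Fin N → Derivation ℂ K K) → K) →ₗ[ℂ] K := LinearMap.proj E
      refine LinearIndependent.of_comp ev ?_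
      have h1 : (ev ∘ θ) = f := funext fun l => hθf l
      rw [h1]
      exact hf
    · rcases (hθ l).2 P hP G hG with h1 | h1
      · exact Or.inl h1
      · right
        obtain ⟨s, hs, hs0, hsP⟩ := hS P hP
        refine ⟨s, hs, hs0, ?_⟩
        have h2 := (Rat.cast_le (K := ℝ)).2 h1
        rw [Pi.add_apply, Pi.smul_apply, nsmul_eq_mul] at h2
        push_cast at h2
        change (P.ord s : ℝ) - m * (Δ P : ℝ) ≤ (P.ord (θ l G) : ℝ)
        linarith
  · rcases (hω j).2 P hP (hP.divisorial hy hcard) G hG with h1 | h1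
    · exact Or.inl h1
    · right
      rw [Pi.smul_apply, nsmul_eq_mul]
      have h2 : (((-(T * Δ P) : ℚ)) : ℝ) ≤ (((P.ord (ω j G) : ℤ) : ℚ) : ℝ) := by
        push_cast
        exact h1
      exact_mod_cast h2

end Pool.Agent.Results.MP_2c56d9_ag.MultiprojectivePairs
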